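import Mathlib

namespace Pool.Agent.H.MP_128071_co
open Finset SimpleGraph

theorem layers {V : Type*} [Fintype V] (G : SimpleGraph V) (hG : G.IsTree) :
    ∃ (lvl idx : V → ℕ) (par : V → V) (n : ℕ → ℕ), n 0 = 1 ∧ (∀ l ≤ G.diam, 1 ≤ n l) ∧
      (∀ v, lvl v ≤ G.diam) ∧ (∀ v, idx v < n (lvl v)) ∧ (∀ l i, i < n l → ∃ v, lvl v = l ∧ idx v = i) ∧
      (∀ u v, lvl u = lvl v → idx u = idx v → u = v) ∧
      (∀ v l, lvl v = l + 1 → lvl (par v) = l) ∧
      (∀ u v l, lvl u = l + 1 → lvl v = l + 1 → idx (par u) < idx (par v) → idx u < idx v) ∧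
      (∀ l < G.diam, ∃ v, lvl v = l + 1 ∧ idx (par v) + 1 = n l) ∧
      (∀ u v, G.Adj u v → ∃ x l, lvl x = l + 1 ∧ s(u, v) = s(par x, x)) ∧
      (∀ l, n l = #{v | lvl v = l}) := by
  classical
  have := hG.connected.nonempty
  obtain ⟨r, w, hw⟩ := G.exists_dist_eq_diam
  have hc := hG.connected
  have hp : ∀ v, ∃ p, ∀ l, G.dist r v = l + 1 → G.Adj p v ∧ G.dist r p = l := by
    intro v
    obtain ⟨q, hq⟩ := hc.exists_walk_length_eq_dist v r
    cases q with
    | nil => exact ⟨r, fun l h => by simp at h⟩
    | @cons _ p _ h q =>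
      refine ⟨p, fun l hl => ⟨h.symm, ?_⟩⟩
      have h1 := G.dist_le q
      have h2 := hG.dist_eq_dist_add_one_of_adj r h
      rw [Walk.length_cons, dist_comm] at hq
      rw [dist_comm] at h1
      omega
  choose par hp using hp
  let lvl := G.dist r
  let a : ℕ → V := fun l => par^[G.diam - l] w
  have la : ∀ k ≤ G.diam, lvl (par^[k] w) = G.diam - k := by
    intro k
    induction k with
    | zero => exact fun _ => hw
    | succ k ih =>
      intro h
      rw [Function.iterate_succ_apply']
      exact (hp _ _ ((ih (by omega)).trans (by omega))).2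
  have a1 : ∀ l ≤ G.diam, lvl (a l) = l := fun l h => (la _ (by omega)).trans (by omega)
  have a2 : ∀ l < G.diam, par (a (l + 1)) = a l := fun l h => by
    simp only [a]
    rw [show G.diam - l = G.diam - (l + 1) + 1 by omega, Function.iterate_succ_apply']
  have ld : ∀ v, lvl v ≤ G.diam := fun v =>
    dist_le_diam (connected_iff_ediam_ne_top.1 hc)
  let e := Fintype.equivFin V
  let M := Fintype.card V
  let id' : V → ℕ := fun v => if v = a (lvl v) then M else e v
  have i1 : ∀ v, id' v < M + 1 := fun v => by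
    simp only [id']; split_ifs; · omega
    exact (e v).2.trans (Nat.lt_succ_self _)
  have i2 : ∀ u v, lvl u = lvl v → id' u = id' v → u = v := fun u v h h' => by
    simp only [id'] at h'
    have := (e u).2
    have := (e v).2
    split_ifs at h' with h1 h2 h2
    · rw [h1, h, ← h2]
    · omega
    · omega
    · exact e.injective (Fin.ext h')
  obtain ⟨key, k1⟩ : ∃ key : V → ℕ,
      ∀ v l, lvl v = l + 1 → key v = key (par v) * (M + 1) + id' v := by
    let K : ℕ → V → ℕ := fun t => Nat.rec (fun _ => 0) (fun _ f v => f (par v) * (M + 1) + id' v) t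
    refine ⟨fun v => K (lvl v) v, fun v l h => ?_⟩
    have : lvl (par v) = l := (hp v l h).2
    simp only [h, this]; rfl
  have z : ∀ v, lvl v = 0 → v = r := fun v h => (hc.dist_eq_zero_iff.1 h).symm
  have k2 : ∀ u v, lvl u = lvl v → key u = key v → u = v := fun u v h h' => by
    rcases hl : lvl u with _ | l
    · rw [z u hl, z v (h ▸ hl)]
    · rw [k1 u l hl, k1 v l (h ▸ hl)] at h'
      have := congrArg (· % (M + 1)) h'
      simp only [Nat.mul_add_mod_self_right, Nat.mod_eq_of_lt (i1 _)] at this
      exact i2 u v h this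
  have k3 : ∀ l v, lvl v = l → key v ≤ key (a l) := by
    intro l
    induction l with
    | zero => intro v h; rw [z v h, z (a 0) (a1 0 (by omega))]
    | succ l ih =>
      intro v h
      have h1 : l + 1 ≤ G.diam := h ▸ ld v
      rw [k1 v l h, k1 _ l (a1 _ h1), a2 l h1]
      have h2 : id' (a (l + 1)) = M := by simp only [id', a1 _ h1, if_true]
      have := Nat.mul_le_mul_right (M + 1) (ih _ (hp v l h).2)
      have := i1 v
      omega
  let idx : V → ℕ := fun v => #(univ.filter fun u => lvl u = lvl v ∧ key u < key v)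
  have x1 : ∀ u v, lvl u = lvl v → key u < key v → idx u < idx v := fun u v h h' =>
    card_lt_card ⟨fun x hx => by
      simp only [mem_filter, mem_univ, true_and] at hx ⊢; omega, fun hx => by
      simpa using hx (show u ∈ _ by simp [h, h'])⟩
  have x2 : ∀ u v, lvl u = lvl v → idx u = idx v → u = v := fun u v h h' => by
    rcases lt_trichotomy (key u) (key v) with h1 | h1 | h1
    · exact absurd (x1 u v h h1) (by omega)
    · exact k2 u v h h1
    · exact absurd (x1 v u h.symm h1) (by omega)
  have x3 : ∀ u v, lvl u = lvl v → idx u < idx v → key u < key v := fun u v h h' => by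
    rcases lt_trichotomy (key u) (key v) with h1 | h1 | h1
    · exact h1
    · rw [k2 u v h h1] at h'; omega
    · exact absurd (x1 v u h.symm h1) (by omega)
  have x4 : ∀ v, idx v < #{u | lvl u = lvl v} := fun v =>
    card_lt_card ⟨fun x hx => by
      simp only [mem_filter, mem_univ, true_and] at hx ⊢; omega, fun hx => by
      simpa using hx (show v ∈ _ by simp)⟩
  have x5 : ∀ l i, i < #{u | lvl u = l} → ∃ v, lvl v = l ∧ idx v = i := fun l i hi => by
    obtain ⟨v, hv, h⟩ := surjOn_of_injOn_of_card_le (s := ({u | lvl u = l} : Finset V))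
      (t := range #{u | lvl u = l}) idx (fun v hv => by
        simp only [coe_filter, mem_univ, true_and, Set.mem_ofPred_eq] at hv
        simpa [hv] using x4 v) (fun u hu v hv h => by
        simp only [coe_filter, mem_univ, true_and, Set.mem_ofPred_eq] at hu hv
        exact x2 u v (hu.trans hv.symm) h) (by simp) (mem_coe.2 (mem_range.2 hi))
    exact ⟨v, by simpa using hv, h⟩
  refine ⟨lvl, idx, par, fun l => #{v | lvl v = l}, card_eq_one.2 ⟨r, ?_⟩,
    fun l hl => card_pos.2 ⟨a l, by simp [a1 l hl]⟩, ld, x4, x5, x2, fun v l h => (hp v l h).2,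
    fun u v l hu hv h => x1 u v (hu.trans hv.symm) ?_, fun l hl => ⟨a (l + 1), a1 _ hl, ?_⟩,
    fun u v h => ?_, fun _ => rfl⟩
  · ext v
    simp only [mem_filter, mem_univ, true_and, mem_singleton]
    exact ⟨z v, fun h => by simp [h, lvl]⟩
  · have := x3 _ _ ((hp u l hu).2.trans (hp v l hv).2.symm) h
    rw [k1 u l hu, k1 v l hv]
    nlinarith [i1 u]
  · rw [a2 l hl]
    have h1 := x4 (a l)
    rw [a1 l hl.le] at h1
    obtain ⟨v, h2, h3⟩ := x5 l (#{u | lvl u = l} - 1) (by omega)
    by_contra h
    beta_reduce at h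
    have := x3 (a l) v ((a1 l hl.le).trans h2.symm) (by omega)
    have := k3 l v h2
    omega
  · have hl : ∀ x : {x // x ≠ r}, lvl x.1 = lvl x.1 - 1 + 1 := fun x => by
      have : lvl x.1 ≠ 0 := fun h => x.2 (z _ h)
      omega
    let f : {x // x ≠ r} → G.edgeSet := fun x => ⟨s(par x.1, x.1), (hp _ _ (hl x)).1⟩
    have hf : Function.Bijective f := (Fintype.bijective_iff_injective_and_card f).2 ⟨fun x y h => by
      rcases Sym2.eq_iff.1 (congrArg Subtype.val h) with h | h
      · exact Subtype.ext h.2
      · have h1 := (hp _ _ (hl x)).2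
        have h2 := (hp _ _ (hl y)).2
        have := hl x
        rw [h.1] at h1
        rw [← h.2] at h2
        simp only [lvl] at *
        omega, by
      have := hG.card_edgeFinset
      rw [edgeFinset_card] at this
      simp only [ne_eq, Fintype.card_subtype_compl, Fintype.card_unique]
      omega⟩
    obtain ⟨x, hx⟩ := hf.2 ⟨s(u, v), h⟩
    exact ⟨x, _, hl x, (congrArg Subtype.val hx).symm⟩

end Pool.Agent.H.MP_128071_co
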